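import Mathlib
import Pool.Agent.K1H97.FC.Fld
import Pool.Agent.W307.RT.Tors

/-!
# The 2-primary part of Ш over all the subfields of `ℚ(√q : q ∈ S)` for infinite sets `S` of primes

For a positive proportion of the elliptic curves `E` over `ℚ` with full rational 2-torsion, ordered by
height, there is an infinite set `S` of primes such that for every number field `K` generated by the
square roots of finitely many products of elements of `S`, the group `E(K)` is finite and the
2-primary part of `Ш(E/K)` is finite and killed by `2 ^ n`, with `n` the number of the products. The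
same holds for the twists of `E` by the products of elements of `S`. The proportion does not depend on
the modulus `m` if one asks that all the elements of `S` are `1` modulo `m`.

The proof. The curves are those with 2-Selmer group of order four (a positive proportion, by a
theorem of the library) and with primes `l`, `l'` that divide the discriminant of
`E : y² = x (x - A) (x - B)` exactly in one of the factors `B` and `A - B` (almost all curves). The primes
`q` in `S` are `1` modulo `8`, squares modulo all the odd bad primes of `E` different from `l` and `l'`,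
not squares modulo `l` and `l'`, and squares modulo each other. For the twist by a product `d` of
elements of `S` the 2-Selmer group has order four again. If the number of the primes is odd, the local
conditions at `l` and `l'` are changed, the classes of the 2-torsion points of `E` show by reciprocity
that the unramified classes are trivial, and the result of `OddProductTwists` (MP_e23604_nt) applies.
If it is even, reciprocity with the classes of the 2-torsion points of `E` shows that the two
components of a class are divisible by an even number of the primes, and then the class comes from a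
class of `E`. In both cases the local conditions at the primes dividing `d` finish the proof.
-/

set_option autoImplicit false

namespace Pool.Agent.Results.MP_78d38b_nt.AllSquareRootFields

open Finset

/-- the curve `y² = x³ + A x + B` over `K`, `c = (A, B)` -/
def E (K : Type) [Field K] (c : ℤ × ℤ) : WeierstrassCurve K := ⟨0, 0, 0, (c.1 : K), (c.2 : K)⟩

/-- the quadratic twist by `d` of the curve `y² = x³ + A x + B`, `c = (A, B)` -/
def Tw (K : Type) [Field K] (d : ℤ) (c : ℤ × ℤ) : WeierstrassCurve K :=
  E K (d ^ 2 * c.1, d ^ 3 * c.2)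

open Classical in
/-- The pairs `(A, B)` of integers such that `4 A³ + 27 B² ≠ 0`, there is no prime `p` with
`p⁴ ∣ A` and `p⁶ ∣ B`, the height `max (4 |A|³) (27 B²)` is at most `H`, and `Z/2 x Z/2` embeds in
the group of the rational points of `y² = x³ + A x + B`. (The bounds `|A|, |B| ≤ H` follow from the
bound of the height. Every elliptic curve over `ℚ` is isomorphic to `E ℚ (A, B)` for exactly one pair
with the first two properties.) -/
noncomputable def Fam (H : ℕ) : Finset (ℤ × ℤ) :=
  ((Icc (-(H : ℤ)) H) ×ˢ (Icc (-(H : ℤ)) H)).filter (fun c : ℤ × ℤ =>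
    4 * c.1 ^ 3 + 27 * c.2 ^ 2 ≠ 0 ∧ 4 * |c.1| ^ 3 ≤ H ∧ 27 * c.2 ^ 2 ≤ H ∧
    (∀ p : ℕ, p.Prime → ¬ ((p : ℤ) ^ 4 ∣ c.1 ∧ (p : ℤ) ^ 6 ∣ c.2)) ∧
    ∃ f : ZMod 2 × ZMod 2 →+ (E ℚ c).toAffine.Point, Function.Injective f)

/-- `K` is generated over `ℚ` by the square roots of `n` products of different elements of `𝒬` -/
def SqrtField (𝒬 : Set ℕ) (n : ℕ) (K : Type) [Field K] [NumberField K] : Prop :=
  ∃ (T : Fin n → Finset ℕ) (x : Fin n → K),
    (∀ i, (T i : Set ℕ) ⊆ 𝒬 ∧ x i ^ 2 = ((∏ q ∈ T i, q : ℕ) : K)) ∧
    IntermediateField.adjoin ℚ (Set.range x) = ⊤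

/-- `W` has finitely many points over `K`, the elements of 2-power order of `Ш(W/K)` are a finite set,
and they are killed by `2 ^ n` -/
def Settled {K : Type} [Field K] [NumberField K] (n : ℕ) (W : WeierstrassCurve K) : Prop :=
  Finite W.toAffine.Point ∧
    {x : Pool.Agent.TH841.NF.D.Sha W | ∃ k : ℕ, (2 ^ k : ℕ) • x = 0}.Finite ∧
    ∀ (k : ℕ) (x : Pool.Agent.TH841.NF.D.Sha W), (2 ^ k : ℕ) • x = 0 → (2 ^ n : ℕ) • x = 0

/-- `𝒬` is an infinite set of primes that are `1` modulo `m`, and the twists of `E` by the products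
of different elements of `𝒬` (the empty product gives `E` itself) are settled over all the fields
generated by square roots of such products (for `n = 0` this is the field `ℚ`) -/
def Tower (m : ℕ) (c : ℤ × ℤ) (𝒬 : Set ℕ) : Prop :=
  𝒬.Infinite ∧ (∀ q ∈ 𝒬, q.Prime ∧ q ≡ 1 [MOD m]) ∧
  ∀ D : Finset ℕ, (D : Set ℕ) ⊆ 𝒬 →
    ∀ (n : ℕ) (K : Type) [Field K] [NumberField K], SqrtField 𝒬 n K →
      Settled n (Tw K (∏ q ∈ D, q : ℕ) c)

lemma Fam_eq (H : ℕ) : Fam H = Pool.Agent.W307.RT.Cv 2 H := by
  classical
  unfold Fam Pool.Agent.W307.RT.Cv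
  apply filter_congr
  intro c _
  have h : Pool.Agent.W307.RT.HasT 2 (Pool.Agent.W307.RT.Sh c.1 c.2) ↔
      ∃ f : ZMod 2 × ZMod 2 →+ (E ℚ c).toAffine.Point, Function.Injective f :=
    Pool.Agent.W307.RT.tors_iff
  rw [h]

/-- a curve of the family: the discriminant and a root -/
lemma mem_fam {H : ℕ} {c : ℤ × ℤ} (hc : c ∈ Pool.Agent.W307.RT.Cv 2 H) :
    4 * c.1 ^ 3 + 27 * c.2 ^ 2 ≠ 0 ∧ ∃ e : ℤ, e ^ 3 + c.1 * e + c.2 = 0 := by
  classical
  obtain ⟨Φ, -, hΦ⟩ := Pool.Agent.W513.FK.parf
  unfold Pool.Agent.W307.RT.Cv at hc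
  obtain ⟨_, a1, a2, _, _, a3⟩ := mem_filter.1 hc
  obtain ⟨-, -, -, -, -, e1, e2, e3, he, -, -⟩ := hΦ c a1 a3
  refine ⟨a1, e1, ?_⟩
  rw [he]
  ring

lemma tower_of {m : ℕ} {c : ℤ × ℤ} {𝒬 : Set ℕ} (hc : Pool.Agent.K1H97.FC.FCube m c 𝒬)
    (hD : 4 * c.1 ^ 3 + 27 * c.2 ^ 2 ≠ 0) {e : ℤ} (he : e ^ 3 + c.1 * e + c.2 = 0) :
    Tower m c 𝒬 := by
  refine ⟨hc.1, fun q hq => ⟨hc.2.1 q hq, hc.2.2.1 q hq⟩, fun D hDQ n K _ _ hK => ?_⟩
  obtain ⟨T, x, h1, h2⟩ := hK
  obtain ⟨f1, f2, f3⟩ := Pool.Agent.K1H97.FC.field_full hc hD he hDQ T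
    (fun i => (h1 i).1) K (x := x) (fun i => by
      rw [(h1 i).2]
      unfold Pool.Agent.K1H97.CU.pT
      push_cast
      rfl) h2
  exact ⟨f1, f2, f3⟩

open Classical in
/-- **Theorem.** There is `κ > 0` such that for every `m ≥ 1` and all large `H`, at least
`κ * #Fam H` of the elliptic curves `E` over `ℚ` with full rational 2-torsion and height at most `H`
have an infinite set `S` of primes, all of them `1` modulo `m`, such that for every number field `K`
generated over `ℚ` by the square roots of `n` products of different elements of `S`, `E` has finitely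
many points over `K`, and the 2-primary part of its Tate-Shafarevich group over `K` is finite and
killed by `2 ^ n`; and the same holds for the quadratic twists of `E` by all the products of different
elements of `S`. -/
theorem result : ∃ κ : ℝ, 0 < κ ∧ ∀ m : ℕ, 0 < m → ∃ H₀ : ℕ, ∀ H : ℕ, H₀ ≤ H →
    κ * ((Fam H).card : ℝ) ≤
      (((Fam H).filter (fun c => ∃ 𝒬 : Set ℕ, Tower m c 𝒬)).card : ℝ) := by
  obtain ⟨κ, hκ, h⟩ := Pool.Agent.K1H97.FC.mainF
  refine ⟨κ, hκ, fun m hm => ?_⟩
  obtain ⟨H₀, h₀⟩ := h m hm
  refine ⟨H₀, fun H hH => ?_⟩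
  rw [Fam_eq]
  refine (h₀ H hH).trans ?_
  refine Nat.cast_le.2 (card_le_card fun c hc => ?_)
  rw [mem_filter] at hc ⊢
  obtain ⟨hD, e, he⟩ := mem_fam hc.1
  obtain ⟨h1, 𝒬, h2⟩ := hc
  exact ⟨h1, 𝒬, tower_of h2 hD he⟩

end Pool.Agent.Results.MP_78d38b_nt.AllSquareRootFields
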