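import Mathlib
import Pool.Agent.K1H97.CU.Fld
import Pool.Agent.Y676.Tsm
import Pool.Agent.Y660.TS.Rnk
import Pool.Agent.Y660.TS.Mom
import Pool.Agent.Y46.KEY.Key
import Pool.Agent.W307.RT.Tors

/-!
# The 2-primary part of Ш in the layers of infinite multiquadratic extensions of `ℚ`

For almost all elliptic curves `E` over `ℚ` with full rational 2-torsion, ordered by height, and for a
positive proportion of the primes `q` up to any bound `Q ≥ (log H) ^ C`, there is an infinite set `S`
of primes that contains `q`, such that for all the number fields `K` generated by the square roots of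
finitely many products of an even number of different elements of `S` and for all the products `d` of
an odd number of different elements of `S`, for example `d = q`, the twist of `E` by `d` has finitely
many points over `K`, and the 2-primary part of its Tate-Shafarevich group over `K` is finite and
killed by `2 ^ n`, with `n` the number of the products.

The proof. All the twists of `E` by the products of an odd number of different elements of `S` have
finitely many rational points and no element of order two in the Tate-Shafarevich group over `ℚ` (this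
is `OddProductTwists` for MP_e23604_nt). The twists of these curves by the products of an even number of
elements of `S` are again such twists, and the points and the 2-primary part over a multiquadratic
field are controlled by those of the twists over `ℚ`.
-/

set_option autoImplicit false

namespace Pool.Agent.Results.MP_78d38b_nt.InfiniteMultiquadratic

open Finset

/-- the curve `y² = x³ + A x + B` over `K`, `c = (A, B)` -/
def E (K : Type) [Field K] (c : ℤ × ℤ) : WeierstrassCurve K := ⟨0, 0, 0, (c.1 : K), (c.2 : K)⟩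

/-- the quadratic twist by `d` of the curve `y² = x³ + A x + B`, `c = (A, B)` -/
def Tw (K : Type) [Field K] (d : ℤ) (c : ℤ × ℤ) : WeierstrassCurve K :=
  E K (d ^ 2 * c.1, d ^ 3 * c.2)

open Classical in
/-- The pairs `(A, B)` of integers such that `4 A³ + 27 B² ≠ 0`, there is no prime `p` with
`p⁴ ∣ A` and `p⁶ ∣ B`, the height `max (4 |A|³) (27 B²)` is at most `H`, and `Z/2 x Z/2` embeds in
the group of the rational points of `y² = x³ + A x + B`. (The bounds `|A|, |B| ≤ H` follow from the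
bound of the height. Every elliptic curve over `ℚ` is isomorphic to `E ℚ (A, B)` for exactly one pair
with the first two properties.) -/
noncomputable def Fam (H : ℕ) : Finset (ℤ × ℤ) :=
  ((Icc (-(H : ℤ)) H) ×ˢ (Icc (-(H : ℤ)) H)).filter (fun c : ℤ × ℤ =>
    4 * c.1 ^ 3 + 27 * c.2 ^ 2 ≠ 0 ∧ 4 * |c.1| ^ 3 ≤ H ∧ 27 * c.2 ^ 2 ≤ H ∧
    (∀ p : ℕ, p.Prime → ¬ ((p : ℤ) ^ 4 ∣ c.1 ∧ (p : ℤ) ^ 6 ∣ c.2)) ∧
    ∃ f : ZMod 2 × ZMod 2 →+ (E ℚ c).toAffine.Point, Function.Injective f)

/-- `K` is generated over `ℚ` by the square roots of `n` products of an even number of different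
elements of `𝒬` -/
def EvenField (𝒬 : Set ℕ) (n : ℕ) (K : Type) [Field K] [NumberField K] : Prop :=
  ∃ (T : Fin n → Finset ℕ) (x : Fin n → K),
    (∀ i, (T i : Set ℕ) ⊆ 𝒬 ∧ Even (T i).card ∧ x i ^ 2 = ((∏ q ∈ T i, q : ℕ) : K)) ∧
    IntermediateField.adjoin ℚ (Set.range x) = ⊤

/-- `W` has finitely many points over `K`, the elements of 2-power order of `Ш(W/K)` are a finite set,
and they are killed by `2 ^ n` -/
def Settled {K : Type} [Field K] [NumberField K] (n : ℕ) (W : WeierstrassCurve K) : Prop :=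
  Finite W.toAffine.Point ∧
    {x : Pool.Agent.TH841.NF.D.Sha W | ∃ k : ℕ, (2 ^ k : ℕ) • x = 0}.Finite ∧
    ∀ (k : ℕ) (x : Pool.Agent.TH841.NF.D.Sha W), (2 ^ k : ℕ) • x = 0 → (2 ^ n : ℕ) • x = 0

/-- `𝒬` is an infinite set of primes, and for every product `d` of an odd number of different
elements of `𝒬` the twist of `E` by `d` is settled over all the fields generated by square roots of
products of an even number of different elements of `𝒬` -/
def Tower (c : ℤ × ℤ) (𝒬 : Set ℕ) : Prop := 𝒬.Infinite ∧ (∀ q ∈ 𝒬, q.Prime) ∧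
  ∀ D : Finset ℕ, (D : Set ℕ) ⊆ 𝒬 → Odd D.card →
    ∀ (n : ℕ) (K : Type) [Field K] [NumberField K], EvenField 𝒬 n K →
      Settled n (Tw K (∏ q ∈ D, q : ℕ) c)

open Classical in
/-- the primes `q ≤ Q` which are elements of such sets -/
noncomputable def PQ (Q : ℕ) (c : ℤ × ℤ) : Finset ℕ :=
  (Icc 1 Q).filter (fun q => ∃ 𝒬 : Set ℕ, q ∈ 𝒬 ∧ Tower c 𝒬)

lemma Fam_eq (H : ℕ) : Fam H = Pool.Agent.W307.RT.Cv 2 H := by
  classical
  unfold Fam Pool.Agent.W307.RT.Cv
  apply filter_congr
  intro c _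
  have h : Pool.Agent.W307.RT.HasT 2 (Pool.Agent.W307.RT.Sh c.1 c.2) ↔
      ∃ f : ZMod 2 × ZMod 2 →+ (E ℚ c).toAffine.Point, Function.Injective f :=
    Pool.Agent.W307.RT.tors_iff
  rw [h]

/-- a curve of the family: the discriminant and a root -/
lemma mem_fam {H : ℕ} {c : ℤ × ℤ} (hc : c ∈ Pool.Agent.W307.RT.Cv 2 H) :
    4 * c.1 ^ 3 + 27 * c.2 ^ 2 ≠ 0 ∧ ∃ e : ℤ, e ^ 3 + c.1 * e + c.2 = 0 := by
  classical
  obtain ⟨Φ, -, hΦ⟩ := Pool.Agent.W513.FK.parf
  unfold Pool.Agent.W307.RT.Cv at hc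
  obtain ⟨_, a1, a2, _, _, a3⟩ := mem_filter.1 hc
  obtain ⟨-, -, -, -, -, e1, e2, e3, he, -, -⟩ := hΦ c a1 a3
  refine ⟨a1, e1, ?_⟩
  rw [he]
  ring

lemma tower_of {c : ℤ × ℤ} {𝒬 : Set ℕ} (hc : Pool.Agent.K1H97.CU.Cube c 𝒬)
    (hD : 4 * c.1 ^ 3 + 27 * c.2 ^ 2 ≠ 0) {e : ℤ} (he : e ^ 3 + c.1 * e + c.2 = 0) :
    Tower c 𝒬 := by
  refine ⟨hc.1, hc.2.1, fun D hDQ hod n K _ _ hK => ?_⟩
  obtain ⟨T, x, h1, h2⟩ := hK
  obtain ⟨f1, f2, f3⟩ := Pool.Agent.K1H97.CU.field_of hc hD he hDQ hod T
    (fun i => ⟨(h1 i).1, (h1 i).2.1⟩) K (x := x) (fun i => by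
      rw [(h1 i).2.2]
      unfold Pool.Agent.K1H97.CU.pT
      push_cast
      rfl) h2
  exact ⟨f1, f2, f3⟩

lemma sub_PQ (Q : ℕ) {c : ℤ × ℤ} (hD : 4 * c.1 ^ 3 + 27 * c.2 ^ 2 ≠ 0) {e : ℤ}
    (he : e ^ 3 + c.1 * e + c.2 = 0) : Pool.Agent.K1H97.CU.CQ Q c ⊆ PQ Q c := by
  classical
  intro q hq
  unfold Pool.Agent.K1H97.CU.CQ at hq
  unfold PQ
  rw [mem_filter] at hq ⊢
  obtain ⟨h1, 𝒬, h2, h3⟩ := hq
  exact ⟨h1, 𝒬, h2, tower_of h3 hD he⟩

open Classical in
/-- **Theorem.** There is a constant `C` such that for every `ε > 0` there is `κ > 0` such that for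
all large `H` and all `Q ≥ (log H) ^ C` the following holds for all but at most `ε * #Fam H` of the
elliptic curves `E` over `ℚ` with full rational 2-torsion and height at most `H`: for at least
`κ * Q / log Q` primes `q ≤ Q` (a positive proportion of the primes up to `Q`) there is an infinite
set `S` of primes that contains `q`, such that for every product `d` of an odd number of different
elements of `S` and every number field `K` generated by the square roots of `n` products of an even
number of different elements of `S`, the quadratic twist of `E` by `d` has finitely many points over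
`K`, and the 2-primary part of its Tate-Shafarevich group over `K` is finite and killed by `2 ^ n`. -/
theorem result : ∃ C : ℕ, ∀ ε : ℝ, 0 < ε → ∃ κ : ℝ, 0 < κ ∧ ∃ H₀ : ℕ, ∀ H : ℕ, H₀ ≤ H →
    ∀ Q : ℕ, (Real.log H) ^ C ≤ Q →
    (((Fam H).filter (fun c => ¬ κ * Q / Real.log Q ≤ ((PQ Q c).card : ℝ))).card : ℝ) ≤
      ε * ((Fam H).card : ℝ) := by
  refine ⟨Pool.Agent.Y676.CE 1, fun ε hε => ?_⟩
  obtain ⟨κ, hκ, H₀, h⟩ := Pool.Agent.K1H97.CU.main
    (Pool.Agent.Y46.KEY.key_of Pool.Agent.Y660.TS.rnk Pool.Agent.Y676.Tsm.tsm)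
    Pool.Agent.Y660.TS.mom ε hε
  refine ⟨κ, hκ, H₀, fun H hH Q hQ => ?_⟩
  rw [Fam_eq]
  refine le_trans ?_ (h H hH Q hQ)
  refine Nat.cast_le.2 (card_le_card fun c hc => ?_)
  rw [mem_filter] at hc ⊢
  obtain ⟨hD, e, he⟩ := mem_fam hc.1
  refine ⟨hc.1, fun h' => hc.2 (h'.trans ?_)⟩
  exact Nat.cast_le.2 (card_le_card (sub_PQ Q hD he))

end Pool.Agent.Results.MP_78d38b_nt.InfiniteMultiquadratic
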