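import Mathlib
import Pool.Agent.K1H82.LQ.Main
import Pool.Agent.K1H82.LQ.Pos
import Pool.Agent.Y676.Tsm
import Pool.Agent.Y660.TS.Rnk
import Pool.Agent.Y660.TS.Mom
import Pool.Agent.Y46.KEY.Key
import Pool.Agent.W307.RT.Tors
import Pool.Agent.W513.FK.Parf

/-!
# The 2-primary part of Ш over small quadratic fields with prescribed completions

Let `M ≥ 1`. The completions of a quadratic field at the real place and at the primes dividing `M` may
be prescribed (by an integer `d` such that they are those of `ℚ(√d)`).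
(1) For almost all elliptic curves `E` over `ℚ` with full rational 2-torsion, ordered by height, there
are for each choice of these completions many small quadratic fields `K` with these completions
such that `rank E(K) = rank E(ℚ)`, and `Ш(E/K)[2^∞]` is finite if and only if `Ш(E/ℚ)[2^∞]` is finite.
(2) For a positive proportion of the `E` the group `E(K)` is finite and `Ш(E/K)[2^∞]` is finite for
these fields; the proportion does not depend on `M`.
(3) In every residue class and in every open cone there are at least `X² / (log X) ^ C` pairs `(a, b)`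
of integers, `|a|, |b| ≤ X`, such that this holds for `E : y² = x (x - a) (x - b)`. So the behaviour of
`E` and of `K` at finitely many places can be prescribed at the same time.
In (1), (2) the fields are `K = ℚ(√(D₀ q))` with `|D₀| ≤ 8 M²` and a positive proportion of the primes
`q` up to any bound `Q ≥ (log H) ^ C`; in (3), `|D₀| q ≤ (log X) ^ C`. In all cases each of the `q` is in an
infinite set `S` of primes such that `q` may be replaced by any product `n` of an odd number of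
different elements of `S`.

The proof. Every square class at the places above has an element `e` with `|e| ≤ 8 M²`. A typical
pair `(a, b)` remains typical if it is multiplied by `e`, so by the results of `OddProductTwists`
(MP_e23604_nt) there are the primes such that the twist by `e n` is trivial; this gives (1) and, by the
positive proportion of curves with 2-Selmer groups of order four, (2). For (3) the pair is also
multiplied by a small good prime `q₁` of the trivial class, and `D₀ = e q₁`: the twist of `E_{q₁}` by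
`e q₁ n` is isomorphic to `E_{e n}`.
-/

set_option autoImplicit false

namespace Pool.Agent.Results.MP_78d38b_nt.PrescribedCompletions

open Finset

/-- the curve `y² = x³ + A x + B` over `K`, `c = (A, B)` -/
def E (K : Type) [Field K] (c : ℤ × ℤ) : WeierstrassCurve K := ⟨0, 0, 0, (c.1 : K), (c.2 : K)⟩

open Classical in
/-- The pairs `(A, B)` of integers such that `4 A³ + 27 B² ≠ 0`, there is no prime `p` with
`p⁴ ∣ A` and `p⁶ ∣ B`, the height `max (4 |A|³) (27 B²)` is at most `H`, and `Z/2 x Z/2` embeds in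
the group of the rational points of `y² = x³ + A x + B`. (The bounds `|A|, |B| ≤ H` follow from the
bound of the height. Every elliptic curve over `ℚ` is isomorphic to `E ℚ (A, B)` for exactly one pair
with the first two properties.) -/
noncomputable def Fam (H : ℕ) : Finset (ℤ × ℤ) :=
  ((Icc (-(H : ℤ)) H) ×ˢ (Icc (-(H : ℤ)) H)).filter (fun c : ℤ × ℤ =>
    4 * c.1 ^ 3 + 27 * c.2 ^ 2 ≠ 0 ∧ 4 * |c.1| ^ 3 ≤ H ∧ 27 * c.2 ^ 2 ≤ H ∧
    (∀ p : ℕ, p.Prime → ¬ ((p : ℤ) ^ 4 ∣ c.1 ∧ (p : ℤ) ^ 6 ∣ c.2)) ∧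
    ∃ f : ZMod 2 × ZMod 2 →+ (E ℚ c).toAffine.Point, Function.Injective f)

/-- the curve `y² = x (x - a) (x - b)` over `K` -/
def L (K : Type) [Field K] (a b : ℤ) : WeierstrassCurve K := ⟨0, -((a : K) + b), 0, (a : K) * b, 0⟩

/-- `K = ℚ(√D)` -/
def IsSqrtField (D : ℤ) (K : Type) [Field K] [NumberField K] : Prop :=
  ∃ r : K, r ^ 2 = (D : K) ∧ IntermediateField.adjoin ℚ {r} = ⊤

/-- the elements of 2-power order form a finite set -/
def TwoPrimaryFinite (G : Type) [AddCommGroup G] : Prop :=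
  {x : G | ∃ k : ℕ, (2 ^ k : ℕ) • x = 0}.Finite

/-- `W` has finitely many points over `K`, the 2-primary part of `Ш(W/K)` is finite, and it is killed
by two -/
def Settled {K : Type} [Field K] [NumberField K] (W : WeierstrassCurve K) : Prop :=
  Finite W.toAffine.Point ∧ TwoPrimaryFinite (Pool.Agent.TH841.NF.D.Sha W) ∧
    ∀ (k : ℕ) (x : Pool.Agent.TH841.NF.D.Sha W), (2 ^ k : ℕ) • x = 0 → 2 • x = 0

/-- For `K = ℚ(√D)`: `rank E(K) = rank E(ℚ)`, and `Ш(E/K)[2^∞]` is finite if and only if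
`Ш(E/ℚ)[2^∞]` is finite. -/
def Same (D : ℤ) (c : ℤ × ℤ) : Prop :=
  ∀ (K : Type) [Field K] [NumberField K], IsSqrtField D K →
    Pool.Agent.TH841.NF.D.rk (E K c) = Pool.Agent.TH841.SH.D.rk (E ℚ c) ∧
    (TwoPrimaryFinite (Pool.Agent.TH841.NF.D.Sha (E K c)) ↔
      TwoPrimaryFinite (Pool.Agent.TH841.SH.D.Sha (E ℚ c)))

/-- `D` and `d` are in the same class in the multiplicative groups of `ℝ` and of `ℚ_p`, for all the
primes `p` dividing `M`, modulo squares; so the completions of `ℚ(√D)` and `ℚ(√d)` at these places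
are isomorphic -/
def SameAt (M : ℕ) (D d : ℤ) : Prop :=
  0 < D * d ∧ ∀ (p : ℕ) [Fact p.Prime], p ∣ M → IsSquare ((D * d : ℤ) : ℚ_[p])

/-- `S` is an infinite set of primes, and for all the products `n` of an odd number of different
elements of `S` the integer `D₀ n` is in the local class of `d` and satisfies `P`. -/
def Odds (M : ℕ) (P : ℤ → Prop) (D₀ d : ℤ) (S : Set ℕ) : Prop :=
  S.Infinite ∧ (∀ s ∈ S, s.Prime) ∧ ∀ T : Finset ℕ, (T : Set ℕ) ⊆ S → Odd T.card →
    SameAt M (D₀ * (∏ s ∈ T, s : ℕ)) d ∧ P (D₀ * (∏ s ∈ T, s : ℕ))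

open Classical in
/-- For every nonzero `d` there is an integer `D₀` with `|D₀| ≤ 8 M²` such that at least
`κ Q / log Q` primes `q ≤ Q` are elements of such sets `S`. -/
def ManyInEveryClass (M Q : ℕ) (κ : ℝ) (P : ℤ → Prop) : Prop :=
  ∀ d : ℤ, d ≠ 0 → ∃ D₀ : ℤ, |D₀| ≤ 8 * (M : ℤ) ^ 2 ∧
    κ * Q / Real.log Q ≤ (((Icc 1 Q).filter (fun q => ∃ S : Set ℕ, q ∈ S ∧ Odds M P D₀ d S)).card : ℝ)

/-- For every nonzero `d` there are an integer `D₀` and a prime `q` with `|D₀| q ≤ B` such that `q` is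
an element of such a set `S`. -/
def SmallInEveryClass (M : ℕ) (B : ℝ) (P : ℤ → Prop) : Prop :=
  ∀ d : ℤ, d ≠ 0 → ∃ (D₀ : ℤ) (q : ℕ) (S : Set ℕ), (|D₀| : ℤ) * (q : ℝ) ≤ B ∧ q ∈ S ∧
    Odds M P D₀ d S

/-- The pairs `(a, b)` of integers with `|a|, |b| ≤ X` and with the local conditions `a ≡ a₀`,
`b ≡ b₀` modulo `M` and `(a, b) ∈ V` such that `y² = x (x - a) (x - b)` is an elliptic curve which is
settled over small quadratic fields with any completions at the real place and at the primes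
dividing `M`. -/
def Good (C M : ℕ) (a₀ b₀ : ℤ) (V : Set (ℝ × ℝ)) (X : ℕ) : Set (ℤ × ℤ) :=
  {t | |t.1| ≤ X ∧ |t.2| ≤ X ∧ t.1 ≡ a₀ [ZMOD M] ∧ t.2 ≡ b₀ [ZMOD M] ∧
    ((t.1 : ℝ), (t.2 : ℝ)) ∈ V ∧ t.1 ≠ 0 ∧ t.2 ≠ 0 ∧ t.1 ≠ t.2 ∧
    SmallInEveryClass M ((Real.log X) ^ C) (fun D => ∀ (K : Type) [Field K] [NumberField K],
      IsSqrtField D K → Settled (L K t.1 t.2))}

lemma Fam_eq (H : ℕ) : Fam H = Pool.Agent.W307.RT.Cv 2 H := by
  classical
  unfold Fam Pool.Agent.W307.RT.Cv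
  apply filter_congr
  intro c _
  have h : Pool.Agent.W307.RT.HasT 2 (Pool.Agent.W307.RT.Sh c.1 c.2) ↔
      ∃ f : ZMod 2 × ZMod 2 →+ (E ℚ c).toAffine.Point, Function.Injective f :=
    Pool.Agent.W307.RT.tors_iff
  rw [h]

/-- a curve of the family: the discriminant and a root -/
lemma mem_fam {H : ℕ} {c : ℤ × ℤ} (hc : c ∈ Pool.Agent.W307.RT.Cv 2 H) :
    4 * c.1 ^ 3 + 27 * c.2 ^ 2 ≠ 0 ∧ ∃ e : ℤ, e ^ 3 + c.1 * e + c.2 = 0 := by
  classical
  obtain ⟨Φ, -, hΦ⟩ := Pool.Agent.W513.FK.parf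
  unfold Pool.Agent.W307.RT.Cv at hc
  obtain ⟨_, a1, a2, _, _, a3⟩ := mem_filter.1 hc
  obtain ⟨-, -, -, -, -, e1, e2, e3, he, -, -⟩ := hΦ c a1 a3
  refine ⟨a1, e1, ?_⟩
  rw [he]
  ring

lemma many_of {M Q : ℕ} {κ : ℝ} {P : ℤ → Prop} (h : Pool.Agent.K1H82.LQ.Wq M Q κ P) :
    ManyInEveryClass M Q κ P := h

lemma small_of {M : ℕ} {B : ℝ} {P : ℤ → Prop} (h : Pool.Agent.K1H82.LQ.Ws M B P) :
    SmallInEveryClass M B P := h

lemma same_of {c : ℤ × ℤ} (hD : 4 * c.1 ^ 3 + 27 * c.2 ^ 2 ≠ 0) {e : ℤ}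
    (he : e ^ 3 + c.1 * e + c.2 = 0) {D : ℤ} (hD0 : D ≠ 0)
    (h : Pool.Agent.Y723.QT.Tr (D ^ 2 * c.1) (D ^ 3 * c.2)) : Same D c :=
  fun K _ _ hK => Pool.Agent.Y723.QT.stable hD he hD0 h K hK

lemma settled_of {c : ℤ × ℤ} (hD : 4 * c.1 ^ 3 + 27 * c.2 ^ 2 ≠ 0) {e : ℤ}
    (he : e ^ 3 + c.1 * e + c.2 = 0) {D : ℤ} (hD0 : D ≠ 0)
    (h0 : Pool.Agent.Y723.QT.Tr c.1 c.2)
    (h : Pool.Agent.Y723.QT.Tr (D ^ 2 * c.1) (D ^ 3 * c.2)) (K : Type) [Field K] [NumberField K]
    (hK : IsSqrtField D K) : Settled (E K c) :=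
  Pool.Agent.K1H82.LQ.settled_of hD he (Pool.Agent.Y723.QT.triv2 hD he hD0 h0 h K hK)

open Classical in
/-- **Theorem.** There is a constant `C` with the following properties. Here the fields `K` are given by
a nonzero integer `d`, an integer `D₀` and an infinite set `S` of primes: they are the fields
`K = ℚ(√(D₀ n))` for all the products `n` of an odd number of different elements of `S`, and `K` and
`ℚ(√d)` have the same completions at the real place and at the primes dividing `M`.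
(1) Let `M ≥ 1` and `ε > 0`. There is `κ > 0` such that for all large `H` and all `Q ≥ (log H) ^ C`, for
all but at most `ε * #Fam H` of the elliptic curves `E` over `ℚ` with full rational 2-torsion and
height at most `H`, for each `d` there is `D₀` with `|D₀| ≤ 8 M²` such that at least `κ Q / log Q` primes
`q ≤ Q` are in sets `S` with `rank E(K) = rank E(ℚ)` and [`Ш(E/K)[2^∞]` is finite if and only if
`Ш(E/ℚ)[2^∞]` is finite] for all the fields `K`.
(2) There is `δ > 0` such that for every `M ≥ 1` there is `κ > 0` such that for all large `H` and all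
`Q ≥ (log H) ^ C`, for at least `δ * #Fam H` of these curves, for each `d` there is `D₀` with
`|D₀| ≤ 8 M²` such that at least `κ Q / log Q` primes `q ≤ Q` are in sets `S` such that, for all the
fields `K`, `E(K)` is finite, and `Ш(E/K)[2^∞]` is finite and killed by two.
(3) For every `M ≥ 1`, all residue classes `a₀`, `b₀` modulo `M` and every nonempty open cone `V` in the
plane, for all large `X` at least `X² / (log X) ^ C` pairs `(a, b)` of integers with `|a|, |b| ≤ X`,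
`a ≡ a₀`, `b ≡ b₀` modulo `M` and `(a, b) ∈ V` have the following property: for
`E : y² = x (x - a) (x - b)` and for each `d` there are `D₀`, `S` and `q ∈ S` with
`|D₀| q ≤ (log X) ^ C` such that for all the fields `K` the group `E(K)` is finite and `Ш(E/K)[2^∞]` is
finite and killed by two. -/
theorem result : ∃ C : ℕ,
    (∀ M : ℕ, 0 < M → ∀ ε : ℝ, 0 < ε → ∃ κ : ℝ, 0 < κ ∧ ∃ H₀ : ℕ, ∀ H : ℕ, H₀ ≤ H →
      ∀ Q : ℕ, (Real.log H) ^ C ≤ Q →
      (((Fam H).filter (fun c => ¬ ManyInEveryClass M Q κ (fun D => Same D c))).card : ℝ) ≤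
        ε * ((Fam H).card : ℝ)) ∧
    (∃ δ : ℝ, 0 < δ ∧ ∀ M : ℕ, 0 < M → ∃ κ : ℝ, 0 < κ ∧ ∃ H₀ : ℕ, ∀ H : ℕ, H₀ ≤ H →
      ∀ Q : ℕ, (Real.log H) ^ C ≤ Q →
      δ * ((Fam H).card : ℝ) ≤ (((Fam H).filter (fun c => ManyInEveryClass M Q κ (fun D =>
        ∀ (K : Type) [Field K] [NumberField K], IsSqrtField D K → Settled (E K c)))).card : ℝ)) ∧
    ∀ M : ℕ, 0 < M → ∀ (a₀ b₀ : ℤ) (V : Set (ℝ × ℝ)), IsOpen V → V.Nonempty →
      (∀ v ∈ V, ∀ u : ℝ, 0 < u → u • v ∈ V) → ∃ X₀ : ℕ, ∀ X : ℕ, X₀ ≤ X →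
        (X : ℝ) ^ 2 / (Real.log X) ^ C ≤ ((Good C M a₀ b₀ V X).ncard : ℝ) := by
  have hkey := Pool.Agent.Y46.KEY.key_of Pool.Agent.Y660.TS.rnk Pool.Agent.Y676.Tsm.tsm
  refine ⟨Pool.Agent.K1H97.WA.CC, fun M hM ε hε => ?_, ?_, fun M hM a₀ b₀ V hV hne hcone => ?_⟩
  · obtain ⟨κ, hκ, H₀, h⟩ := Pool.Agent.K1H82.LQ.main_all hkey Pool.Agent.Y660.TS.mom M hM ε hε
    refine ⟨κ, hκ, H₀, fun H hH Q hQ => ?_⟩
    rw [Fam_eq]
    refine le_trans ?_ (h H hH Q hQ)
    refine Nat.cast_le.2 (card_le_card fun c hc => ?_)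
    rw [mem_filter] at hc ⊢
    obtain ⟨hD, e, he⟩ := mem_fam hc.1
    refine ⟨hc.1, fun h' => hc.2 (many_of (h'.mono fun D hD0 hT => ?_))⟩
    exact same_of hD he hD0 (Pool.Agent.K1H82.LQ.trS_of hT)
  · obtain ⟨δ, hδ, H₁, h₁⟩ := Pool.Agent.K1H82.LQ.pos_trivial
    refine ⟨δ / 2, by positivity, fun M hM => ?_⟩
    obtain ⟨κ, hκ, H₂, h₂⟩ := Pool.Agent.K1H82.LQ.main_all hkey Pool.Agent.Y660.TS.mom M hM
      (δ / 2) (by positivity)
    refine ⟨κ, hκ, H₁ + H₂, fun H hH Q hQ => ?_⟩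
    have g1 := h₁ H (by omega)
    have g2 := h₂ H (by omega) Q hQ
    rw [Fam_eq]
    have g3 : (((Pool.Agent.W307.RT.Cv 2 H).filter (fun t : ℤ × ℤ =>
        Pool.Agent.Y723.QT.Tr t.1 t.2)).card : ℝ) ≤
        (((Pool.Agent.W307.RT.Cv 2 H).filter (fun c => ManyInEveryClass M Q κ (fun D =>
          ∀ (K : Type) [Field K] [NumberField K], IsSqrtField D K → Settled (E K c)))).card : ℝ) +
        (((Pool.Agent.W307.RT.Cv 2 H).filter (fun c => ¬ Pool.Agent.K1H82.LQ.Wq M Q κ (fun D =>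
          Pool.Agent.K1H97.CU.Tv (Pool.Agent.W307.RT.Sh (D ^ 2 * c.1) (D ^ 3 * c.2))))).card : ℝ) := by
      rw [← Nat.cast_add]
      refine Nat.cast_le.2 ((card_le_card fun c hc => ?_).trans (card_union_le _ _))
      rw [mem_filter] at hc
      rw [mem_union, mem_filter, mem_filter]
      by_cases h : Pool.Agent.K1H82.LQ.Wq M Q κ (fun D =>
          Pool.Agent.K1H97.CU.Tv (Pool.Agent.W307.RT.Sh (D ^ 2 * c.1) (D ^ 3 * c.2)))
      · left
        obtain ⟨hD, e, he⟩ := mem_fam hc.1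
        refine ⟨hc.1, many_of (h.mono fun D hD0 hT => ?_)⟩
        exact settled_of hD he hD0 hc.2 (Pool.Agent.K1H82.LQ.trS_of hT)
      · exact Or.inr ⟨hc.1, h⟩
    linarith
  · obtain ⟨⟨α, β⟩, hv⟩ := hne
    obtain ⟨δ, hδ, hball⟩ := Metric.isOpen_iff.1 hV _ hv
    obtain ⟨X₀, hX₀⟩ := Pool.Agent.K1H82.LQ.main_pairs M hM a₀ b₀ α β δ hδ
    refine ⟨X₀, fun X hX => (hX₀ X hX).trans ?_⟩
    have hfin : (Good Pool.Agent.K1H97.WA.CC M a₀ b₀ V X).Finite := by
      refine ((Set.finite_Icc (-(X : ℤ)) X).prod (Set.finite_Icc (-(X : ℤ)) X)).subset ?_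
      intro t ht
      exact ⟨abs_le.1 ht.1, abs_le.1 ht.2.1⟩
    have hsub : (((Pool.Agent.Y676.Bx X).filter (fun t => Pool.Agent.K1H97.WA.LC M a₀ b₀ α β δ t ∧
        Pool.Agent.K1H82.LQ.Pr M X t) : Finset (ℤ × ℤ)) : Set (ℤ × ℤ)) ⊆
          Good Pool.Agent.K1H97.WA.CC M a₀ b₀ V X := by
      intro t ht
      rw [Finset.mem_coe, Finset.mem_filter, Pool.Agent.Y676.mem_Bx] at ht
      obtain ⟨⟨⟨h1, h2⟩, h3, h4, h5⟩, h6, h7, h8⟩ := ht
      obtain ⟨u, hu, hu1, hu2⟩ := h6.re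
      refine ⟨abs_le.2 h1, abs_le.2 h2, h6.ca, h6.cb, ?_, h3, h4, h5,
        small_of (h8.mono fun D _ hD => hD.qf)⟩
      have hin : (u⁻¹ * (t.1 : ℝ), u⁻¹ * (t.2 : ℝ)) ∈ V := by
        have hw : ∀ z γ : ℝ, |z - u * γ| < u * δ → |u⁻¹ * z - γ| < δ := by
          intro z γ hz
          have e : u⁻¹ * z - γ = u⁻¹ * (z - u * γ) := by
            rw [mul_sub, inv_mul_cancel_left₀ hu.ne']
          rw [e, abs_mul, abs_of_pos (inv_pos.2 hu)]
          calc u⁻¹ * |z - u * γ| < u⁻¹ * (u * δ) := mul_lt_mul_of_pos_left hz (inv_pos.2 hu)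
            _ = δ := inv_mul_cancel_left₀ hu.ne' _
        apply hball
        rw [Metric.mem_ball, Prod.dist_eq, max_lt_iff, Real.dist_eq, Real.dist_eq]
        exact ⟨hw _ _ hu1, hw _ _ hu2⟩
      have := hcone _ hin u hu
      rw [Prod.smul_mk, smul_eq_mul, smul_eq_mul, mul_inv_cancel_left₀ hu.ne',
        mul_inv_cancel_left₀ hu.ne'] at this
      exact this
    have h := Set.ncard_le_ncard hsub hfin
    rw [Set.ncard_coe_finset] at h
    exact_mod_cast h

end Pool.Agent.Results.MP_78d38b_nt.PrescribedCompletions
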