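import Pool.Agent.K1H82.Sha.Tower
import Pool.Agent.K1H82.Sha.Gal
import Pool.Agent.W401.Cheb.Main
import Pool.Agent.R901.EC.X11

/-!
# The 2-primary part of the Tate-Shafarevich group in infinite unramified towers

Let `W` be an elliptic curve over `ℚ` with trivial 2-Selmer group over `ℚ`, for example `X_0(11)`.

Theorem.  For every `N` there are a real quadratic field `k` ramified only at primes larger than `N` and
an infinite Galois extension `M` of `ℚ` containing `k`, with `M / k` unramified at all places (in
particular all the number fields between `k` and `M` have the root discriminant of `k`), such that for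
every number field `E` contained in `M` the group `W(E)` is finite of odd order and `Ш(W/E)[2^∞] = 0`.

The proof.  Let `k = ℚ(√(q_0 ⋯ q_n))` where the `q_i ≡ 1 mod 8` are squares modulo the odd prime
divisors of the discriminant of `W`, and the cubic polynomial of the 2-torsion of `W` has no root modulo
`q_i`; there are infinitely many such primes by the theorem of Chebotarev, because there is an
automorphism of order three of the splitting field of the cubic polynomial which fixes the square roots
in question.  By the method of Golod and Shafarevich, with the bound for the number of generators coming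
from the `√q_i`, the maximal unramified 2-extension of `k` in which the primes dividing `2Δ` split
completely and which is totally real is infinite if `n` is large (it is built step by step: for a
finite extension `L / k` of this kind, the bound `d² / 4` for the number of relations and the unit
theorem give an element of `L` which is a square of an ideal, totally positive, a local square at the
primes dividing `2Δ`, invariant modulo squares, and not a square).  Over the layers which are
Galois over `ℚ` the 2-Selmer group of `W` is trivial by descent from `L` to `ℚ` (starting files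
`R425/T`), because the ramified primes are the `q_i`, where the number of the points of the curve is
odd.  Finally the restriction of the 2-primary part of `Ш(W/E)` to `Ш(W/L)` is injective for `E ⊆ L`,
because `W(L)` is of odd order and the degree of `L / E` is a power of two.
-/

set_option autoImplicit false

open NumberField IsDedekindDomain Module

namespace Pool.Agent.Results.MP_78d38b_nt.UnramifiedTowers

/-- `W` over the field `K`. -/
abbrev curve (W : WeierstrassCurve ℤ) (K : Type) [Field K] : WeierstrassCurve K :=
  W.map (Int.castRingHom K)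

/-- `W(K)` is finite of odd order. -/
def OddPoints (W : WeierstrassCurve ℤ) (K : Type) [Field K] : Prop :=
  Finite (curve W K).toAffine.Point ∧ Odd (Nat.card (curve W K).toAffine.Point)

/-- The Tate-Shafarevich group of `W` over the number field `K`: the continuous 1-cocycles of the
absolute Galois group of `K` with values in `W(K̄)` which are coboundaries over all the completions of `K`,
modulo coboundaries. -/
abbrev Sha (W : WeierstrassCurve ℤ) (K : Type) [Field K] [NumberField K] : Type :=
  Pool.Agent.TH841.NF.D.Sha (curve W K)

/-- The 2-Selmer group of `W` over `ℚ` is trivial: `W(ℚ)` is finite of odd order and `Ш(W/ℚ)` has no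
element of order two. -/
def TrivialTwoSelmer (W : WeierstrassCurve ℤ) : Prop :=
  OddPoints W ℚ ∧ ∀ s : Sha W ℚ, 2 • s = 0 → s = 0

/-- The field of the algebraic numbers. -/
abbrev Qbar : Type := AlgebraicClosure ℚ

/-- `E` is totally real, its degree is a power of two, and its primes dividing `2D` are of residue
degree one. -/
def RealTwoField (D : ℤ) (E : Type) [Field E] [NumberField E] : Prop :=
  (∃ n, finrank ℚ E = 2 ^ n) ∧ (∀ v : InfinitePlace E, v.IsReal) ∧
    ∀ v : HeightOneSpectrum (𝓞 E), ((2 * D : ℤ) : 𝓞 E) ∈ v.asIdeal → (Ideal.absNorm v.asIdeal).Prime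

/-- `|disc E| ^ [k : ℚ] = |disc k| ^ [E : ℚ]`, that is, the root discriminants of `k` and `E` are equal.
For `E ⊇ k` this says that `E / k` is unramified at all the finite primes. -/
def SameRootDisc (k E : Type) [Field k] [NumberField k] [Field E] [NumberField E] : Prop :=
  (discr E).natAbs ^ finrank ℚ k = (discr k).natAbs ^ finrank ℚ E

/-- `k` is a quadratic field ramified only at primes larger than `N` which do not divide `2D`. -/
def QuadraticBase (D : ℤ) (N : ℕ) (k : Type) [Field k] [NumberField k] : Prop :=
  finrank ℚ k = 2 ∧ ∀ l : ℕ, l.Prime → (l : ℤ) ∣ discr k → N < l ∧ ¬ (l : ℤ) ∣ 2 * D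

/-- `k` is a real quadratic field as above and `M` is an infinite Galois extension of `ℚ` containing `k`,
such that all the number fields `E ⊆ M` are totally real of 2-power degree with primes of residue degree
one above `2D`, and `E / k` is unramified if `E` contains `k`. -/
def IsTower (D : ℤ) (N : ℕ) (k M : IntermediateField ℚ Qbar) [NumberField k] : Prop :=
  QuadraticBase D N k ∧ k ≤ M ∧ IsGalois ℚ M ∧ ¬ FiniteDimensional ℚ M ∧
    ∀ (E : IntermediateField ℚ Qbar) [NumberField E], E ≤ M →
      RealTwoField D E ∧ (k ≤ E → SameRootDisc k E)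

/-- `X_0(11)`. -/
def X11 : WeierstrassCurve ℤ := ⟨0, -1, 1, -10, -20⟩

theorem deg_eq {K : Type} [Field K] [NumberField K] [i : Algebra ℚ K] :
    finrank ℚ K = Pool.Agent.K1H82.Sha.deg K := by
  obtain rfl : i = DivisionRing.toRatAlgebra := Subsingleton.elim _ _
  rfl

theorem galois_of_normal {K : Type} [Field K] [CharZero K] [Algebra ℚ K] (h : Normal ℚ K) :
    IsGalois ℚ K := ⟨⟩

theorem result :
    (∀ W : WeierstrassCurve ℤ, W.Δ ≠ 0 → TrivialTwoSelmer W → ∀ N : ℕ,
      ∃ (k M : IntermediateField ℚ Qbar) (_ : NumberField k), IsTower W.Δ N k M ∧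
        ∀ (E : IntermediateField ℚ Qbar) [NumberField E], E ≤ M →
          OddPoints W E ∧ ∀ (n : ℕ) (s : Sha W E), 2 ^ n • s = 0 → s = 0) ∧
    (X11.Δ ≠ 0 ∧ TrivialTwoSelmer X11) := by
  refine ⟨fun W hΔ ⟨⟨hfin, hodd⟩, hsha⟩ N => ?_, ?_, ?_⟩
  · obtain ⟨k, M, ik, hkM, hk2, hram, hN, hinf, hE⟩ :=
      Pool.Agent.K1H82.Sha.main_tower Qbar W hΔ (Pool.Agent.K1H82.Sha.no_root' W hΔ hfin hodd)
        Pool.Agent.W401.Cheb.infinite_frob
        (fun m hm K _ _ _ hK => Pool.Agent.K1H82.Sha.concl_normal W hΔ hsha hfin hodd m hm K hK) N
    refine ⟨k, M, ik, ⟨⟨?_, hram⟩, hkM, galois_of_normal hN, hinf, fun E _ hEM => ?_⟩, ?_⟩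
    · rw [deg_eq]
      exact hk2
    · obtain ⟨⟨n, hn⟩, h1, h2, h3, -⟩ := hE E inferInstance hEM
      refine ⟨⟨⟨n, by rw [deg_eq, hn]⟩, fun v => h1.isReal v, h2⟩, fun hkE => ?_⟩
      unfold SameRootDisc
      rw [deg_eq, deg_eq, hk2]
      exact h3 hkE
    · intro E _ hEM
      obtain ⟨-, -, -, -, h1, h2, h3⟩ := hE E inferInstance hEM
      exact ⟨⟨h1, h2⟩, h3⟩
  · norm_num [X11, WeierstrassCurve.Δ, WeierstrassCurve.b₂, WeierstrassCurve.b₄,
      WeierstrassCurve.b₆, WeierstrassCurve.b₈]
  · obtain ⟨h1, h2, h3⟩ := Pool.Agent.R901.EC.sel11
    exact ⟨⟨h2, h3⟩, h1⟩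

end Pool.Agent.Results.MP_78d38b_nt.UnramifiedTowers
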